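import Pool.Agent.H7.HD.Tools2

/-!
# Two lemmas on ordinals of uncountable cofinality
-/

open Ordinal Cardinal Order Set

universe u

namespace Pool.Agent.H3.HD

open _root_.HD

theorem exists_bound {ρ τ : Ordinal.{u}} (hτ : τ.card < ρ.cof) (f : Ordinal.{u} → Ordinal.{u})
    (hf : ∀ i < τ, f i < ρ) : ∃ s < ρ, ∀ i < τ, f i ≤ s := by
  let F : Iio τ → Ordinal.{u} := fun i => f i.1
  refine ⟨⨆ i, F i, ?_, ?_⟩
  · refine lift_iSup_lt_of_lt_cof ?_ (fun i => hf i.1 i.2)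
    rw [Cardinal.mk_Iio_ordinal, ← lift_cof, Cardinal.lift_lift, Cardinal.lift_lt]
    exact hτ
  · intro i hi
    exact Ordinal.le_iSup F ⟨i, hi⟩

theorem exists_iter {ρ : Ordinal.{u}} (hρ : ℵ₀ < ρ.cof) (P : Ordinal.{u} → Ordinal.{u} → Prop)
    (hP : ∀ b < ρ, ∃ b' < ρ, b < b' ∧ P b b') (a : Ordinal.{u}) (ha : a < ρ) :
    ∃ x < ρ, ∃ s : ℕ → Ordinal.{u}, s 0 = a ∧ (∀ n, s n < x) ∧ (∀ n, P (s n) (s (n + 1))) ∧
      ∀ y < x, ∃ n, y < s n := by
  classical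
  choose! g hg using hP
  let s : ℕ → Ordinal.{u} := fun n => Nat.rec a (fun _ b => g b) n
  have hs : ∀ n, s (n + 1) = g (s n) := fun n => rfl
  have hlt : ∀ n, s n < ρ := by
    intro n
    induction n with
    | zero => exact ha
    | succ n ih => rw [hs]; exact (hg _ ih).1
  have hsx : ∀ n, s n ≤ ⨆ n, s n := fun n => Ordinal.le_iSup s n
  refine ⟨⨆ n, s n, ?_, s, rfl, ?_, ?_, ?_⟩
  · refine lift_iSup_lt_of_lt_cof ?_ hlt
    simpa using hρ
  · intro n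
    refine lt_of_lt_of_le ?_ (hsx (n + 1))
    rw [hs]
    exact (hg _ (hlt n)).2.1
  · intro n
    rw [hs]
    exact (hg _ (hlt n)).2.2
  · intro y hy
    exact (Ordinal.lt_iSup_iff).1 hy

end Pool.Agent.H3.HD
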