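import Pool.Agent.H3.HD.Iter

/-!
# Module VA: small unions of null sets are null
-/

open Ordinal Cardinal Order Set

universe u

namespace Pool.Agent.H3.HD.VA

open _root_.HD

theorem X : T_VA.{u} := by
  intro μ ρ hρ τ hτ X hX hpos
  have h1 : ∀ i < τ, ∃ C : Set Ordinal.{u}, Clb ρ C ∧ ∀ b < ρ, b ∈ C → b ∈ X i → ¬ Cf μ b := by
    intro i hi
    have h := hX i hi
    unfold Pos at h
    push Not at h
    obtain ⟨C, hC, h⟩ := h
    exact ⟨C, hC, h⟩
  choose! C hC using h1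
  have hclub : Clb ρ {b | ∀ i < τ, b ∈ C i} := by
    refine ⟨?_, ?_⟩
    · intro a ha
      have hstep : ∀ b < ρ, ∃ b' < ρ, b < b' ∧ ∀ i < τ, ∃ c ∈ C i, b < c ∧ c ≤ b' := by
        intro b hb
        have h2 : ∀ i < τ, ∃ c < ρ, b < c ∧ c ∈ C i := fun i hi => (hC i hi).1.unb b hb
        choose! c hc using h2
        obtain ⟨s, hs, hs2⟩ := exists_bound hτ c (fun i hi => (hc i hi).1)
        have hlim : IsSuccLimit ρ := (Ordinal.one_lt_cof_iff).1 (Cardinal.one_lt_aleph0.trans hρ)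
        refine ⟨max s (b + 1), max_lt hs (hlim.add_one_lt hb),
          lt_of_lt_of_le (_root_.lt_add_one b) (le_max_right _ _), ?_⟩
        intro i hi
        exact ⟨c i, (hc i hi).2.2, (hc i hi).2.1, (hs2 i hi).trans (le_max_left _ _)⟩
      obtain ⟨x, hx, s, hs0, hsx, hsP, hsy⟩ := exists_iter hρ _ hstep a ha
      refine ⟨x, hx, hs0 ▸ hsx 0, ?_⟩
      intro i hi
      refine (hC i hi).1.cls x hx ((zero_le (a := s 0)).trans_lt (hsx 0)) ?_
      intro y hy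
      obtain ⟨n, hn⟩ := hsy y hy
      obtain ⟨c, hc, h3, h4⟩ := hsP n i hi
      exact ⟨c, h4.trans_lt (hsx _), hn.trans h3, hc⟩
    · intro x hx hx0 h i hi
      refine (hC i hi).1.cls x hx hx0 ?_
      intro y hy
      obtain ⟨z, hz, hyz, hzC⟩ := h y hy
      exact ⟨z, hz, hyz, hzC i hi⟩
  obtain ⟨b, hb, hbC, ⟨i, hi, hbX⟩, hbcf⟩ := hpos _ hclub
  exact (hC i hi).2 b hb (hbC i hi) hbX hbcf

end Pool.Agent.H3.HD.VA
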