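import Pool.Agent.H7.HD.Tools2

/-!
# Module VB: bounded sets are null
-/

open Ordinal Cardinal Order Set

universe u

namespace Pool.Agent.H3.HD.VB

open _root_.HD

theorem X : T_VB.{u} := by
  intro μ ρ β hρ hβ hpos
  have hclub : Clb ρ {x | β ≤ x} := by
    refine ⟨?_, ?_⟩
    · intro a ha
      refine ⟨max a β + 1, hρ.add_one_lt (max_lt ha hβ), ?_, ?_⟩
      · exact lt_of_le_of_lt (le_max_left a β) (_root_.lt_add_one _)
      · exact (le_max_right a β).trans (_root_.lt_add_one _).le
    · intro x _ hx0 h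
      obtain ⟨z, hz, _, hzC⟩ := h 0 hx0
      exact le_trans (show β ≤ z from hzC) hz.le
  obtain ⟨b, _, hbC, hbX, _⟩ := hpos _ hclub
  exact absurd (show b < β from hbX) (not_lt.2 hbC)

end Pool.Agent.H3.HD.VB
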