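import Pool.Agent.H3.HD.Iter

/-!
# Module VE: closure points of a function
-/

open Ordinal Cardinal Order Set

universe u

namespace Pool.Agent.H3.HD.VE

open _root_.HD

theorem X : T_VE.{u} := by
  intro K hK hK0 g hg
  have hcof : K.ord.cof = K := hK.cof_ord
  have hρ : ℵ₀ < K.ord.cof := by rw [hcof]; exact hK0
  have hlim : IsSuccLimit K.ord := (Ordinal.one_lt_cof_iff).1 (Cardinal.one_lt_aleph0.trans hρ)
  refine ⟨?_, ?_⟩
  · intro a ha
    have hstep : ∀ b < K.ord, ∃ b' < K.ord, b < b' ∧ ∀ y < b, g y < b' := by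
      intro b hb
      have hb' : b.card < K.ord.cof := by
        rw [hcof]
        exact Cardinal.lt_ord.1 hb
      obtain ⟨s, hs, hs2⟩ := exists_bound hb' g (fun i hi => hg i (hi.trans hb))
      refine ⟨max (s + 1) (b + 1), max_lt (hlim.add_one_lt hs) (hlim.add_one_lt hb),
        lt_of_lt_of_le (_root_.lt_add_one b) (le_max_right _ _), ?_⟩
      intro y hy
      exact lt_of_lt_of_le (lt_of_le_of_lt (hs2 y hy) (_root_.lt_add_one s)) (le_max_left _ _)
    obtain ⟨x, hx, s, hs0, hsx, hsP, hsy⟩ := exists_iter hρ _ hstep a ha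
    refine ⟨x, hx, hs0 ▸ hsx 0, (zero_le (a := s 0)).trans_lt (hsx 0), ?_⟩
    intro y hy
    obtain ⟨n, hn⟩ := hsy y hy
    exact (hsP n y hn).trans (hsx _)
  · intro x hx hx0 h
    refine ⟨hx0, ?_⟩
    intro y hy
    obtain ⟨z, hz, hyz, hzC⟩ := h y hy
    exact (hzC.2 y hyz).trans hz

end Pool.Agent.H3.HD.VE
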