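import Pool.Agent.H7.HD.Targets4

/-!
# Module DM of the proof for MP_e37c09_lc: definability of the Mitchell order of HOD
-/

open Ordinal Cardinal Order Set
open scoped ZFSet

universe u

namespace Pool.Agent.H3.HD.DM

open _root_.HD

/-! ## The class HOD is definable -/

theorem hod_tr {x : ZFSet.{u}} : HOD x ↔ OD x ∧ ∃ t : ZFSet.{u}, (∀ y ∈ t, ∀ z ∈ y, z ∈ t) ∧
    (∀ y ∈ x, y ∈ t) ∧ ∀ y ∈ t, OD y := by
  constructor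
  · intro hx
    refine ⟨hx.od, ZFSet.sep HOD (V_ x.rank), ?_, ?_, ?_⟩
    · intro y hy z hz
      rw [ZFSet.mem_sep] at hy ⊢
      exact ⟨mem_V_of_mem hz hy.1, (hod_iff.1 hy.2).2 z hz⟩
    · intro y hy
      rw [ZFSet.mem_sep, ZFSet.mem_vonNeumann]
      exact ⟨ZFSet.rank_lt_of_mem hy, (hod_iff.1 hx).2 y hy⟩
    · intro y hy
      exact (ZFSet.mem_sep.1 hy).2.od
  · rintro ⟨h1, t, h2, h3, h4⟩
    have h5 : ∀ y : ZFSet.{u}, y ∈ t → HOD y := by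
      intro y
      induction y using ZFSet.inductionOn with
      | _ y ih =>
        intro hy
        exact hod_iff.2 ⟨h4 y hy, fun z hz => ih z hz (h2 y hy z hz)⟩
    exact hod_iff.2 ⟨h1, fun y hy => h5 y (h3 y hy)⟩

theorem dz_hod (i : ℕ) : DZ.{u} fun v => HOD (v i) := by
  obtain ⟨en, hen⟩ := All.en.{u}
  refine DZ.congr (P := fun v => OD (v i) ∧ ∃ t : ZFSet.{u}, (∀ y ∈ t, ∀ z ∈ y, z ∈ t) ∧
    (∀ y ∈ v i, y ∈ t) ∧ ∀ y ∈ t, OD y) ?_ fun v => hod_tr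
  refine DZ.and (hen.dzOD i) (DZ.ex (DZ.and ?_ (DZ.and ?_ ?_)))
  · exact DZ.allMem 0 (DZ.allMem 0 (DZ.mem 0 2))
  · exact DZ.allMem (i + 1) (DZ.mem 0 1)
  · exact DZ.allMem 0 (hen.dzOD 0)

/-! ## Normal measures of HOD -/

theorem sep_mem {k U : ZFSet.{u}} {p : ZFSet.{u} → Prop} :
    ZFSet.sep p k ∈ U ↔ ∃ z ∈ U, ∀ b, b ∈ z ↔ b ∈ k ∧ p b := by
  constructor
  · intro h
    exact ⟨_, h, fun b => ZFSet.mem_sep⟩
  · rintro ⟨z, hz, h⟩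
    have : ZFSet.sep p k = z := by
      ext b
      rw [ZFSet.mem_sep, h]
    rwa [this]

theorem diff_mem {k x U : ZFSet.{u}} : k \ x ∈ U ↔ ∃ z ∈ U, ∀ b, b ∈ z ↔ b ∈ k ∧ b ∉ x := by
  constructor
  · intro h
    exact ⟨_, h, fun b => ZFSet.mem_sdiff⟩
  · rintro ⟨z, hz, h⟩
    have : k \ x = z := by
      ext b
      rw [ZFSet.mem_sdiff, h]
    rwa [this]

theorem single_mem {a U : ZFSet.{u}} : {a} ∈ U ↔ ∃ z ∈ U, ∀ b, b ∈ z ↔ b = a := by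
  constructor
  · intro h
    exact ⟨_, h, fun b => ZFSet.mem_singleton⟩
  · rintro ⟨z, hz, h⟩
    have : {a} = z := by
      ext b
      rw [ZFSet.mem_singleton, h]
    rwa [this]

theorem inter_mem {x b U : ZFSet.{u}} : x ∩ b ∈ U ↔ ∃ z ∈ U, ∀ c, c ∈ z ↔ c ∈ x ∧ c ∈ b := by
  constructor
  · intro h
    exact ⟨_, h, fun b => ZFSet.mem_inter⟩
  · rintro ⟨z, hz, h⟩
    have : x ∩ b = z := by
      ext c
      rw [ZFSet.mem_inter, h]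
    rwa [this]

/-- `HMeas` in terms of sets -/
def HMZ (k U : ZFSet.{u}) : Prop :=
  HOD U ∧ (∀ x ∈ U, x ⊆ k) ∧
  (∀ x, HOD x → x ⊆ k → (x ∈ U ↔ ¬ ∃ z ∈ U, ∀ b, b ∈ z ↔ b ∈ k ∧ b ∉ x)) ∧
  (∀ x ∈ U, ∀ y, HOD y → x ⊆ y → y ⊆ k → y ∈ U) ∧
  (∀ a ∈ k, ¬ ∃ z ∈ U, ∀ b, b ∈ z ↔ b = a) ∧
  (∀ t ∈ k, ∀ f, HOD f → ZFSet.IsFunc t U f →
    ∃ z ∈ U, ∀ b, b ∈ z ↔ b ∈ k ∧ ∀ a x, ZFSet.pair a x ∈ f → b ∈ x) ∧
  (∀ f, HOD f → ZFSet.IsFunc k U f →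
    ∃ z ∈ U, ∀ b, b ∈ z ↔ b ∈ k ∧ ∀ a x, a ∈ b → ZFSet.pair a x ∈ f → b ∈ x)

theorem hmeas_iff {κ : Ordinal.{u}} {U : ZFSet.{u}} : HMeas κ U ↔ HMZ κ.toZFSet U := by
  constructor
  · intro h
    refine ⟨h.hod, h.sub, ?_, h.up, ?_, ?_, ?_⟩
    · intro x hx hxk
      rw [← diff_mem]
      exact h.ultra x hx hxk
    · intro a ha
      obtain ⟨a, ha', rfl⟩ := mem_toZFSet_iff.1 ha
      rw [← single_mem]
      exact h.nonpr a ha'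
    · intro t ht f hf hfn
      obtain ⟨t, ht', rfl⟩ := mem_toZFSet_iff.1 ht
      rw [← sep_mem]
      exact h.compl t ht' f hf hfn
    · intro f hf hfn
      rw [← sep_mem]
      exact h.normal f hf hfn
  · rintro ⟨h1, h2, h3, h4, h5, h6, h7⟩
    refine ⟨h1, h2, ?_, h4, ?_, ?_, ?_⟩
    · intro x hx hxk
      rw [h3 x hx hxk, ← diff_mem]
    · intro a ha
      rw [single_mem]
      exact h5 _ (toZFSet_mem_toZFSet_iff.2 ha)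
    · intro t ht f hf hfn
      rw [sep_mem]
      exact h6 _ (toZFSet_mem_toZFSet_iff.2 ht) f hf hfn
    · intro f hf hfn
      rw [sep_mem]
      exact h7 f hf hfn

theorem dz_HMZ (i j : ℕ) : DZ.{u} fun v => HMZ (v i) (v j) := by
  refine DZ.and (dz_hod j) (DZ.and ?_ (DZ.and ?_ (DZ.and ?_ (DZ.and ?_ (DZ.and ?_ ?_)))))
  · exact DZ.allMem j (Loc.sub 0 (i + 1)).dz
  · refine DZ.all (DZ.imp (dz_hod 0) (DZ.imp (Loc.sub 0 (i + 1)).dz (DZ.iff (DZ.mem 0 (j + 1))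
      (DZ.not (DZ.exMem (j + 1) (DZ.all (DZ.iff (DZ.mem 0 1) (DZ.and (DZ.mem 0 (i + 3))
        (DZ.mem 0 2).not))))))))
  · exact DZ.allMem j (DZ.all (DZ.imp (dz_hod 0) (DZ.imp (Loc.sub 1 0).dz
      (DZ.imp (Loc.sub 0 (i + 2)).dz (DZ.mem 0 (j + 2))))))
  · exact DZ.allMem i (DZ.not (DZ.exMem (j + 1) (DZ.all (DZ.iff (DZ.mem 0 1) (DZ.eq 0 2)))))
  · refine DZ.allMem i (DZ.all (DZ.imp (dz_hod 0) (DZ.imp (loc_func 1 (j + 2) 0).dz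
      (DZ.exMem (j + 2) (DZ.all (DZ.iff (DZ.mem 0 1) (DZ.and (DZ.mem 0 (i + 4)) ?_)))))))
    exact DZ.all (DZ.all (DZ.imp (loc_pmem 1 0 4).dz (DZ.mem 2 0)))
  · refine DZ.all (DZ.imp (dz_hod 0) (DZ.imp (loc_func (i + 1) (j + 1) 0).dz
      (DZ.exMem (j + 1) (DZ.all (DZ.iff (DZ.mem 0 1) (DZ.and (DZ.mem 0 (i + 3)) ?_))))))
    exact DZ.all (DZ.all (DZ.imp (DZ.mem 1 2) (DZ.imp (loc_pmem 1 0 4).dz (DZ.mem 2 0))))

/-! ## The Mitchell order -/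

/-- `MLt` in terms of sets -/
def MLZ (k U W : ZFSet.{u}) : Prop :=
  ∃ f y, HOD f ∧ ZFSet.IsFunc k y f ∧
    (∃ z ∈ W, ∀ b, b ∈ z ↔ b ∈ k ∧ ∃ u, ZFSet.pair b u ∈ f ∧ HMZ b u) ∧
    ∀ x, HOD x → x ⊆ k → (x ∈ U ↔ ∃ z ∈ W, ∀ b, b ∈ z ↔ b ∈ k ∧
      ∃ u, ZFSet.pair b u ∈ f ∧ ∃ c ∈ u, ∀ d, d ∈ c ↔ d ∈ x ∧ d ∈ b)

theorem mlt_iff {κ : Ordinal.{u}} {U W : ZFSet.{u}} : MLt κ U W ↔ MLZ κ.toZFSet U W := by
  unfold MLt MLZ
  refine exists_congr fun f => exists_congr fun y => and_congr_right fun _ =>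
    and_congr_right fun _ => and_congr ?_ ?_
  · rw [sep_mem]
    refine exists_congr fun z => and_congr_right fun _ => forall_congr' fun b =>
      iff_congr Iff.rfl (and_congr_right fun hb => exists_congr fun u => and_congr_right fun _ => ?_)
    obtain ⟨b, -, rfl⟩ := mem_toZFSet_iff.1 hb
    rw [rank_toZFSet, hmeas_iff]
  · refine forall_congr' fun x => imp_congr_right fun _ => imp_congr_right fun _ =>
      iff_congr Iff.rfl ?_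
    rw [sep_mem]
    refine exists_congr fun z => and_congr_right fun _ => forall_congr' fun b =>
      iff_congr Iff.rfl (and_congr_right fun _ => exists_congr fun u => and_congr_right fun _ => ?_)
    exact inter_mem

theorem dz_MLZ (i j l : ℕ) : DZ.{u} fun v => MLZ (v i) (v j) (v l) := by
  refine DZ.ex (DZ.ex (DZ.and (dz_hod 1) (DZ.and (loc_func (i + 2) 0 1).dz (DZ.and ?_ ?_))))
  · refine DZ.exMem (l + 2) (DZ.all (DZ.iff (DZ.mem 0 1) (DZ.and (DZ.mem 0 (i + 4)) ?_)))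
    exact DZ.ex (DZ.and (loc_pmem 1 0 4).dz (dz_HMZ 1 0))
  · refine DZ.all (DZ.imp (dz_hod 0) (DZ.imp (Loc.sub 0 (i + 3)).dz (DZ.iff (DZ.mem 0 (j + 3))
      (DZ.exMem (l + 3) (DZ.all (DZ.iff (DZ.mem 0 1) (DZ.and (DZ.mem 0 (i + 5)) ?_)))))))
    exact DZ.ex (DZ.and (loc_pmem 1 0 5).dz (DZ.exMem 0 (DZ.all (DZ.iff (DZ.mem 0 1)
      (DZ.and (DZ.mem 0 5) (DZ.mem 0 3))))))

/-! ## The recursion -/

/-- the normal measures (in HOD) on `a` of Mitchell rank at least `c` -/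
noncomputable def F (a : ZFSet.{u}) (c : Ordinal.{u}) : ZFSet.{u} :=
  ZFSet.sep (fun U => a.IsOrdinal ∧ MGe a.rank c U) (ZFSet.powerset (ZFSet.powerset a))

theorem mem_F {a : ZFSet.{u}} {c : Ordinal.{u}} {U : ZFSet.{u}} :
    U ∈ F a c ↔ a.IsOrdinal ∧ MGe a.rank c U := by
  unfold F
  rw [ZFSet.mem_sep]
  refine ⟨fun h => h.2, fun h => ⟨?_, h⟩⟩
  obtain ⟨h1, h2⟩ := h
  rw [MGe] at h2
  rw [ZFSet.mem_powerset]
  intro x hx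
  rw [ZFSet.mem_powerset]
  have := h2.1.sub x hx
  rwa [h1.toZFSet_rank_eq] at this

/-- the step of the recursion -/
def Ph (a c g y : ZFSet.{u}) : Prop :=
  ∀ U, U ∈ y ↔ a.IsOrdinal ∧ HMZ a U ∧ ∀ z ∈ c, ∃ G, ZFSet.pair z G ∈ g ∧ ∃ W ∈ G, MLZ a W U

theorem dz_Ph : DZ.{u} fun v => Ph (v 0) (v 1) (v 2) (v 3) := by
  refine DZ.all (DZ.iff (DZ.mem 0 4) (DZ.and (DZ.ord 1) (DZ.and (dz_HMZ 1 0) ?_)))
  exact DZ.allMem 2 (DZ.ex (DZ.and (loc_pmem 1 0 5).dz (DZ.exMem 0 (dz_MLZ 4 0 3))))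

theorem hF (a : ZFSet.{u}) (c : Ordinal.{u}) (y : ZFSet.{u}) :
    y = F a c ↔ Ph a c.toZFSet (gr (F a) c) y := by
  rw [ZFSet.ext_iff]
  refine forall_congr' fun U => iff_congr Iff.rfl ?_
  rw [mem_F]
  refine and_congr_right fun ha => ?_
  have hr : a.rank.toZFSet = a := ha.toZFSet_rank_eq
  rw [MGe]
  refine and_congr ?_ ?_
  · rw [hmeas_iff, hr]
  · constructor
    · intro h z hz
      obtain ⟨ζ, hζ, rfl⟩ := mem_toZFSet_iff.1 hz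
      obtain ⟨W, h1, h2⟩ := h ⟨ζ, hζ⟩
      refine ⟨F a ζ, pair_mem_gr.2 ⟨hζ, rfl⟩, W, mem_F.2 ⟨ha, h1⟩, ?_⟩
      rwa [mlt_iff, hr] at h2
    · rintro h ⟨ζ, hζ⟩
      obtain ⟨G, h1, W, h2, h3⟩ := h _ (toZFSet_mem_toZFSet_iff.2 hζ)
      obtain ⟨-, rfl⟩ := pair_mem_gr.1 h1
      refine ⟨W, (mem_F.1 h2).2, ?_⟩
      rw [mlt_iff, hr]
      exact h3

theorem dm : T_DM.{u} := by
  have h := DZ.rec dz_Ph hF
  refine ⟨fun v => ∃ y : ZFSet.{u}, ((v 1).IsOrdinal ∧ y = F (v 0) (v 1).rank) ∧ ∃ U, U ∈ y,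
    ?_, ?_⟩
  · refine DZ.ex (DZ.and ?_ (DZ.ex (DZ.mem 0 1)))
    exact h.ren fun n => if n = 0 then 1 else if n = 1 then 2 else 0
  · intro w
    constructor
    · rintro ⟨U, hU⟩
      refine ⟨F (w 0).toZFSet (w 1), ⟨ZFSet.isOrdinal_toZFSet _, ?_⟩, U, ?_⟩
      · simp [ov, rank_toZFSet]
      · rw [mem_F]
        exact ⟨ZFSet.isOrdinal_toZFSet _, by rwa [rank_toZFSet]⟩
    · rintro ⟨y, ⟨-, rfl⟩, U, hU⟩
      rw [mem_F] at hU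
      refine ⟨U, ?_⟩
      simpa [ov, rank_toZFSet] using hU.2

end Pool.Agent.H3.HD.DM
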