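import Pool.Agent.H7.HD.Targets4

/-!
# Module ZE of the proof for MP_e37c09_lc: the Mitchell rank at almost all points of an atom,
uniformly
-/

open Ordinal Cardinal Order Set
open scoped ZFSet

universe u

namespace Pool.Agent.H3.HD.ZE

open _root_.HD

theorem nr_reg (M : Cardinal.{u}) : (nr M).IsRegular :=
  Cardinal.isRegular_succ (le_max_right _ _)

theorem lt_nr (M : Cardinal.{u}) : M < nr M :=
  lt_of_le_of_lt (le_max_left M ℵ₀) (lt_succ _)

theorem mm_ge (g : Cardinal.{u} → Cardinal.{u}) {t ζ : Ordinal.{u}} (h : t < ζ) :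
    succ (max (g (nr (mm g t))) (nr (mm g t))) ≤ mm g ζ := by
  rw [mm.eq_def g ζ]
  exact le_ciSup (f := fun t : Iio ζ => succ (max (g (nr (mm g t.1))) (nr (mm g t.1))))
    (Cardinal.bddAbove_of_small) ⟨t, h⟩

theorem nr_lt (g : Cardinal.{u} → Cardinal.{u}) {t ζ : Ordinal.{u}} (h : t < ζ) :
    nr (mm g t) < mm g ζ :=
  lt_of_lt_of_le (lt_of_le_of_lt (le_max_right _ _) (lt_succ _)) (mm_ge g h)

theorem g_lt (g : Cardinal.{u} → Cardinal.{u}) {t ζ : Ordinal.{u}} (h : t < ζ) :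
    g (nr (mm g t)) < mm g ζ :=
  lt_of_lt_of_le (lt_of_le_of_lt (le_max_left _ _) (lt_succ _)) (mm_ge g h)

theorem le_mm (g : Cardinal.{u} → Cardinal.{u}) (ζ : Ordinal.{u}) : ζ ≤ (mm g ζ).ord := by
  induction ζ using WellFoundedLT.induction with
  | ind ζ ih =>
    refine le_of_forall_lt fun t ht => ?_
    exact lt_of_le_of_lt (ih t ht) (Cardinal.ord_lt_ord.2 ((lt_nr _).trans (nr_lt g ht)))

theorem X (hWB : T_WB.{u}) (hWC : T_WC.{u}) (hHE : T_HE.{u}) (hHF : T_HF.{u}) (hHI : T_HI.{u})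
    (hHJ : T_HJ.{u}) (hVA : T_VA.{u}) : T_ZE.{u} := by
  intro en hen K g hKr hK0 ζ
  have hcof : ℵ₀ < K.ord.cof := by
    rw [hKr.cof_ord]
    exact hK0
  induction ζ using WellFoundedLT.induction with
  | ind ζ ih =>
    intro M P hMr hmM hfam c p hT
    have hMK : M < K := hT.mn.trans hT.nk
    have hX : ∀ t < ζ, ¬ Pos P.ord K.ord {α | α ∈ E en p ∧
        ¬ ∃ W, MGe α t W ∧ MLt α W (uz en M.ord α c)} := by
      intro t ht
      have hM'r : (nr (mm g t)).IsRegular := nr_reg _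
      have hM'M : nr (mm g t) < M := lt_of_lt_of_le (nr_lt g ht) hmM
      have hgM : g (nr (mm g t)) < M := lt_of_lt_of_le (g_lt g ht) hmM
      obtain ⟨τ, hτ, e, he, hnull⟩ := hfam _ hM'r hM'M
      have hτM : τ < M.ord := hτ.trans (Cardinal.ord_lt_ord.2 hgM)
      obtain ⟨i, hi, hpos⟩ := hHF en (nr (mm g t)) M K hen hM'r hMr hKr hM'M hMK τ hτM
        e hnull c hT.ac
      have hTw : Two en (nr (mm g t)) M K (e i) c :=
        ⟨hen, hM'r, hMr, hKr, hM'M, hMK, he i hi, hT.ac, hpos⟩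
      obtain ⟨h2, h3⟩ := hWC en (nr (mm g t)) M K (e i) c hTw P p hT
      have h4 := ih t ht (nr (mm g t)) P hM'r (lt_nr _).le
        (fun M'' h5 h6 => hfam M'' h5 (h6.trans hM'M)) (e i) p h2
      refine fun h => null_union hVA hcof h3 h4 (h.mono ?_)
      rintro α - ⟨hα, hα'⟩ -
      by_cases g1 : Two2 en (nr (mm g t)) M α (e i) c
      · right
        refine ⟨hα, fun g2 => hα' ⟨_, g2, hWB en (nr (mm g t)) M α (e i) c g1⟩⟩
      · left
        exact ⟨hα, g1⟩
    have hcard : ζ.card < K.ord.cof := by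
      rw [hKr.cof_ord]
      refine lt_of_le_of_lt ?_ hMK
      refine le_trans ?_ hmM
      exact (Ordinal.card_le_card (le_mm g ζ)).trans (Cardinal.card_ord _).le
    have h5 := hVA P.ord K.ord hcof ζ hcard _ hX
    have h6 := Pool.Agent.H4.HD.WC.cme_ae hHI hHJ hVA hT
    refine fun h => null_union hVA hcof h6 h5 (h.mono ?_)
    rintro α - ⟨hα, hα'⟩ -
    by_cases g1 : CMe en M.ord α c
    · right
      by_contra hn
      apply hα'
      rw [MGe]
      refine ⟨hHE en hen _ _ _ g1, fun t => ?_⟩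
      by_contra hn2
      exact hn ⟨t.1, t.2, hα, hn2⟩
    · left
      exact ⟨hα, g1⟩

theorem ze : T_ZE.{u} :=
  X All.wb All.wc All.he All.hf All.hi All.hj All.va

end Pool.Agent.H3.HD.ZE
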